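import Pool.Agent.helper23.CO.SpecC

/-!
# Row co:WLA
-/

set_option autoImplicit false

open Finset Filter Topology

namespace CO

open CU

/-- counting in `ZMod n` by the values -/
theorem WLA_card {n : ℕ} [NeZero n] (P : ℕ → Prop) [DecidablePred P] :
    ((univ : Finset (ZMod n)).filter (fun u => P u.val)).card = ((range n).filter P).card := by
  refine Finset.card_nbij' (fun u => u.val) (fun t => (t : ZMod n)) ?_ ?_ ?_ ?_
  · intro u hu
    simp only [coe_filter, mem_univ, true_and, Set.mem_ofPred_eq, mem_range] at hu ⊢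
    exact ⟨ZMod.val_lt u, hu⟩
  · intro t ht
    simp only [coe_filter, mem_univ, true_and, Set.mem_ofPred_eq, mem_range] at ht ⊢
    rw [ZMod.val_natCast_of_lt ht.1]
    exact ht.2
  · intro u _
    exact ZMod.natCast_zmod_val u
  · intro t ht
    simp only [coe_filter, Set.mem_ofPred_eq, mem_range] at ht
    exact ZMod.val_natCast_of_lt ht.1

theorem WLA_wal {n K r o : ℕ} [NeZero n] (hKr : K * r ≤ n) (ho : o < r) :
    (wal n K r o).card = K := by
  unfold wal
  rw [WLA_card (fun t => t < K * r ∧ t % r = o)]
  have : (range n).filter (fun t => t < K * r ∧ t % r = o) = (range K).image (fun j => j * r + o) := by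
    ext t
    simp only [mem_filter, mem_range, mem_image]
    constructor
    · rintro ⟨_, h2, h3⟩
      refine ⟨t / r, ?_, ?_⟩
      · exact (Nat.div_lt_iff_lt_mul (by omega)).mpr h2
      · have := Nat.div_add_mod t r
        rw [h3] at this
        rw [Nat.mul_comm]
        exact this
    · rintro ⟨j, hj, rfl⟩
      have h1 : j * r + o < K * r := by
        have : (j + 1) * r ≤ K * r := Nat.mul_le_mul_right r (by omega)
        have h2 : (j + 1) * r = j * r + r := by ring
        omega
      refine ⟨by omega, h1, ?_⟩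
      rw [Nat.mul_comm j r, Nat.mul_add_mod, Nat.mod_eq_of_lt ho]
  rw [this, card_image_of_injective, card_range]
  intro a b hab
  simp only at hab
  have : a * r = b * r := by omega
  exact Nat.eq_of_mul_eq_mul_right (by omega) this

theorem WLA_disj {n K r o o' : ℕ} [NeZero n] (h : o ≠ o') : Disjoint (wal n K r o) (wal n K r o') := by
  rw [Finset.disjoint_left]
  intro u hu hu'
  unfold wal at hu hu'
  rw [mem_filter] at hu hu'
  exact h (hu.2.2.symm.trans hu'.2.2)

/-- the value of a successor -/
theorem WLA_succ {n : ℕ} [NeZero n] (u : ZMod n) (h : u.val + 1 < n) : (u + 1).val = u.val + 1 := by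
  have h1 : u + 1 = ((u.val + 1 : ℕ) : ZMod n) := by
    push_cast
    rw [ZMod.natCast_zmod_val]
  rw [h1, ZMod.val_natCast_of_lt h]

theorem WLA_pred {n : ℕ} [NeZero n] (u : ZMod n) (h : (u + 1).val ≠ 0) : (u + 1).val = u.val + 1 := by
  have hu := ZMod.val_lt u
  rcases Nat.lt_or_ge (u.val + 1) n with h1 | h1
  · exact WLA_succ u h1
  · exfalso
    apply h
    have h2 : u.val + 1 = n := by omega
    have h3 : u + 1 = ((u.val + 1 : ℕ) : ZMod n) := by
      push_cast
      rw [ZMod.natCast_zmod_val]
    rw [h3, h2, ZMod.natCast_self, ZMod.val_zero]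

theorem WLA : WLA_stmt := by
  intro n K _ hK hn
  obtain ⟨r, hr⟩ : ∃ r, r = n / K := ⟨_, rfl⟩
  obtain ⟨q, hq⟩ : ∃ q, q = r / 4 := ⟨_, rfl⟩
  have hr16 : 16 ≤ r := by
    rw [hr]; exact (Nat.le_div_iff_mul_le (by omega)).mpr hn
  have hKr : K * r ≤ n := by
    rw [hr]; exact Nat.mul_div_le n K
  have hnr : n < K * (r + 1) := by
    rw [hr]
    have := Nat.div_add_mod n K
    have h2 := Nat.mod_lt n (show K > 0 by omega)
    rw [Nat.mul_add, Nat.mul_one]
    omega
  have hppo : ppo n K = Icc (q / 2 + 1) (q + q / 2) := by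
    unfold ppo; rw [← hr, ← hq]
  have hisl : isl n K = univ.filter (fun u : ZMod n => u.val < K * r ∧ 1 ≤ u.val % r ∧ u.val % r ≤ 2 * q) := by
    unfold isl; rw [← hr, ← hq]
  have hpc : (ppo n K).card = q := by
    rw [hppo, Nat.card_Icc]; omega
  rw [← hr]
  have hq4 : 4 * q ≤ r := by omega
  have hq4' : r ≤ 4 * q + 3 := by omega
  have hmem : ∀ o ∈ ppo n K, 1 ≤ o ∧ q / 2 < o ∧ o ≤ q + q / 2 ∧ o < r ∧ o ≤ 2 * q := by
    intro o ho
    rw [hppo, mem_Icc] at ho
    omega
  have hislu : isl n K = (Icc 1 (2 * q)).biUnion (fun o => wal n K r o) := by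
    ext u
    rw [hisl]
    simp only [mem_filter, mem_univ, true_and, mem_biUnion, wal, mem_Icc]
    constructor
    · rintro ⟨h1, h2, h3⟩
      exact ⟨u.val % r, ⟨h2, h3⟩, h1, rfl⟩
    · rintro ⟨o, ⟨h1, h2⟩, h3, h4⟩
      exact ⟨h3, by omega, by omega⟩
  have hislc : (isl n K).card = 2 * q * K := by
    rw [hislu, card_biUnion (fun o _ o' _ h => WLA_disj h)]
    rw [sum_congr rfl (fun o ho => WLA_wal hKr (by rw [mem_Icc] at ho; omega))]
    rw [sum_const, Nat.card_Icc, smul_eq_mul]
    congr 1
  have hi2m : ∀ u : ZMod n, u ∈ i2l n K ↔ u.val < K * r ∧ q / 2 < u.val % r ∧ u.val % r ≤ q + q / 2 := by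
    intro u
    unfold i2l
    rw [← hr]
    simp only [mem_biUnion, hppo, mem_Icc, wal, mem_filter, mem_univ, true_and]
    constructor
    · rintro ⟨o, ⟨h1, h2⟩, h3, h4⟩
      exact ⟨h3, by omega, by omega⟩
    · rintro ⟨h1, h2, h3⟩
      exact ⟨u.val % r, ⟨by omega, h3⟩, h1, rfl⟩
  have hi2c : (i2l n K).card = (ppo n K).card * K := by
    unfold i2l
    rw [← hr, card_biUnion (fun o _ o' _ h => WLA_disj h)]
    rw [sum_congr rfl (fun o ho => WLA_wal hKr (hmem o ho).2.2.2.1)]
    rw [sum_const, smul_eq_mul]
  have hKq : 4 * (q * K) ≤ n := by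
    calc 4 * (q * K) = K * (4 * q) := by ring
      _ ≤ K * r := Nat.mul_le_mul_left K hq4
      _ ≤ n := hKr
  have hKq' : n ≤ 8 * (q * K) := by
    calc n ≤ K * (r + 1) := hnr.le
      _ ≤ K * (8 * q) := Nat.mul_le_mul_left K (by omega)
      _ = 8 * (q * K) := by ring
  refine ⟨fun o ho => WLA_wal hKr ho, ?_, ?_, ?_, fun o _ o' _ h => WLA_disj h, hi2c, ?_, ?_, ?_, ?_⟩
  · intro o ho
    have h := hmem o ho
    refine ⟨h.1, h.2.2.2.1, ?_⟩
    intro u hu
    rw [hislu, mem_biUnion]
    exact ⟨o, mem_Icc.mpr ⟨h.1, h.2.2.2.2⟩, hu⟩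
  · rw [hppo]
    exact nonempty_Icc.mpr (by omega)
  · rw [hpc]
    have : q * 1 ≤ q * K := Nat.mul_le_mul_left q hK
    omega
  · rw [card_sdiff_of_subset (subset_univ _), card_univ, ZMod.card, hislc]
    have : 2 * q * K = 2 * (q * K) := by ring
    omega
  · unfold bdI
    calc ((univ \ isl n K).filter fun u => u + 1 ∉ univ \ isl n K).card ≤ (wal n K r 1).card := by
          refine card_le_card_of_injOn (fun u => u + 1) ?_ ?_
          · intro u hu
            have hu1 := mem_filter.mp (mem_coe.mp hu)
            have h1 : u ∉ isl n K := (mem_sdiff.mp hu1.1).2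
            have h2 : u + 1 ∈ isl n K := by
              by_contra h
              exact hu1.2 (mem_sdiff.mpr ⟨mem_univ _, h⟩)
            rw [hisl, mem_filter] at h1 h2
            obtain ⟨_, h3, h4, h5⟩ := h2
            have hne : (u + 1).val ≠ 0 := by
              intro h0
              rw [h0, Nat.zero_mod] at h4
              omega
            have hv := WLA_pred u hne
            simp only [wal, mem_coe, mem_filter, mem_univ, true_and]
            refine ⟨h3, ?_⟩
            by_contra h6
            apply h1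
            rw [hv] at h3 h4 h5 h6
            have h7 : 2 ≤ (u.val + 1) % r := by omega
            have h8 : (u.val + 1) % r = u.val % r + 1 := by
              have h9 := Nat.mod_lt u.val (show r > 0 by omega)
              rcases Nat.lt_or_ge (u.val % r + 1) r with h10 | h10
              · rw [Nat.add_mod, Nat.mod_eq_of_lt (show 1 < r by omega), Nat.mod_eq_of_lt h10]
              · exfalso
                have h11 : u.val % r + 1 = r := by omega
                rw [Nat.add_mod, Nat.mod_eq_of_lt (show 1 < r by omega), h11, Nat.mod_self] at h7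
                omega
            refine ⟨mem_univ _, by omega, by omega, by omega⟩
          · intro u _ v _ h
            simpa using h
      _ = K := WLA_wal hKr (by omega)
  · rw [hi2c, hpc]; exact hKq'
  · unfold bdI
    calc ((i2l n K).filter fun u => u + 1 ∉ i2l n K).card ≤ (wal n K r (q + q / 2)).card := by
          refine card_le_card ?_
          intro u hu
          rw [mem_filter, hi2m, hi2m] at hu
          obtain ⟨⟨h1, h2, h3⟩, h4⟩ := hu
          simp only [wal, mem_filter, mem_univ, true_and]
          refine ⟨h1, ?_⟩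
          by_contra h5
          apply h4
          have h6 : u.val % r + 1 < r := by omega
          have h8 : (u.val + 1) % r = u.val % r + 1 := by
            rw [Nat.add_mod, Nat.mod_eq_of_lt (show 1 < r by omega), Nat.mod_eq_of_lt h6]
          have h9 : u.val + 1 < K * r := by
            by_contra h10
            have h11 : u.val + 1 = K * r := by omega
            rw [h11, Nat.mul_mod_left] at h8
            omega
          rw [WLA_succ u (by omega), h8]
          exact ⟨h9, by omega, by omega⟩
      _ = K := WLA_wal hKr (by omega)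

end CO
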