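import Pool.Agent.helper88.CO.WLA

/-!
# Row co:WLB
-/

set_option autoImplicit false

open Finset Filter Topology

namespace CO

open CU

theorem WLB : WLB_stmt := by
  intro n K L _ hK hn u v hL
  obtain ⟨r, hr⟩ : ∃ r, r = n / K := ⟨_, rfl⟩
  obtain ⟨q, hq⟩ : ∃ q, q = r / 4 := ⟨_, rfl⟩
  have hr16 : 16 ≤ r := by
    rw [hr]; exact (Nat.le_div_iff_mul_le (by omega)).mpr hn
  have hKr : K * r ≤ n := by
    rw [hr]; exact Nat.mul_div_le n K
  rw [← hr, ← hq]
  set w : ℤ := (v - u).valMinAbs with hw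
  have hwc : ((w : ℤ) : ZMod n) = v - u := by rw [hw]; exact ZMod.coe_valMinAbs _
  have hwL : |w| ≤ (L : ℤ) := by
    have : (w.natAbs : ℤ) ≤ L := by exact_mod_cast hL
    rwa [Int.natCast_natAbs] at this
  have hwL1 := (abs_le.mp hwL).1
  have hwL2 := (abs_le.mp hwL).2
  constructor
  · intro hLq hu
    have hu' : u.val < K * r ∧ q / 2 < u.val % r ∧ u.val % r ≤ q + q / 2 := by
      unfold i2l at hu
      rw [← hr, mem_biUnion] at hu
      obtain ⟨o, ho, hou⟩ := hu
      unfold ppo at ho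
      rw [← hr, ← hq, mem_Icc] at ho
      unfold wal at hou
      rw [mem_filter] at hou
      omega
    obtain ⟨h1, h2, h3⟩ := hu'
    obtain ⟨a, ha⟩ : ∃ a, a = u.val / r := ⟨_, rfl⟩
    obtain ⟨o, ho⟩ : ∃ o, o = u.val % r := ⟨_, rfl⟩
    have huv : r * a + o = u.val := by rw [ha, ho]; exact Nat.div_add_mod _ _
    have haK : a < K := by rw [ha]; exact (Nat.div_lt_iff_lt_mul (by omega)).mpr h1
    rw [← ho] at h2 h3
    have haK2 : r * a + r ≤ K * r := by
      calc r * a + r = (a + 1) * r := by ring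
        _ ≤ K * r := Nat.mul_le_mul_right r haK
    obtain ⟨m, hm⟩ : ∃ m : ℕ, (m : ℤ) = (o : ℤ) + w := ⟨((o : ℤ) + w).toNat, by
      rw [Int.toNat_of_nonneg]; omega⟩
    have hm1 : 1 ≤ m := by omega
    have hm2 : m ≤ 2 * q := by omega
    have hmr : m < r := by omega
    have hv : v = ((r * a + m : ℕ) : ZMod n) := by
      have e1 : v = u + ((w : ℤ) : ZMod n) := by rw [hwc]; ring
      have e2 : u = ((u.val : ℕ) : ZMod n) := (ZMod.natCast_zmod_val u).symm
      have e3 : ((r * a + m : ℕ) : ZMod n) = (((r * a + m : ℕ) : ℤ) : ZMod n) := by push_cast; rfl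
      rw [e3, e1, e2, ← huv]
      push_cast
      have : ((m : ℤ) : ZMod n) = (((o : ℤ) + w : ℤ) : ZMod n) := by rw [hm]
      push_cast at this
      rw [this]
      ring
    have hvv : v.val = r * a + m := by
      rw [hv, ZMod.val_natCast_of_lt (by omega)]
    unfold isl
    rw [← hr, ← hq, mem_filter, hvv]
    have hmod : (r * a + m) % r = m := by rw [Nat.mul_add_mod, Nat.mod_eq_of_lt hmr]
    rw [hmod]
    exact ⟨mem_univ _, by omega, hm1, hm2⟩
  · intro hLr hu hv
    unfold wal at hu hv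
    rw [mem_filter] at hu hv
    obtain ⟨_, hu1, hu2⟩ := hu
    obtain ⟨_, hv1, hv2⟩ := hv
    obtain ⟨a, ha⟩ : ∃ a, a = u.val / r := ⟨_, rfl⟩
    obtain ⟨b, hb⟩ : ∃ b, b = v.val / r := ⟨_, rfl⟩
    have huv : r * a = u.val := by
      have := Nat.div_add_mod u.val r
      rw [hu2, ← ha] at this
      omega
    have hvv : r * b + r / 2 = v.val := by
      have := Nat.div_add_mod v.val r
      rw [hv2, ← hb] at this
      exact this
    have haK : a < K := by rw [ha]; exact (Nat.div_lt_iff_lt_mul (by omega)).mpr hu1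
    have hbK : b < K := by rw [hb]; exact (Nat.div_lt_iff_lt_mul (by omega)).mpr hv1
    have haK2 : r * a + r ≤ n := by
      calc r * a + r = (a + 1) * r := by ring
        _ ≤ K * r := Nat.mul_le_mul_right r haK
        _ ≤ n := hKr
    have hbK2 : r * b + r ≤ n := by
      calc r * b + r = (b + 1) * r := by ring
        _ ≤ K * r := Nat.mul_le_mul_right r hbK
        _ ≤ n := hKr
    have hdvd : (n : ℤ) ∣ w - ((v.val : ℤ) - u.val) := by
      rw [← ZMod.intCast_zmod_eq_zero_iff_dvd]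
      push_cast
      rw [hwc, ZMod.natCast_zmod_val, ZMod.natCast_zmod_val]
      ring
    obtain ⟨k, hk⟩ := hdvd
    have hk2 : w = (v.val : ℤ) - u.val + n * k := by linarith
    rw [← huv, ← hvv] at hk2
    push_cast at hk2
    have hLr2 : L < r / 2 := hLr
    have hr2 : ((r : ℤ) / 2) = ((r / 2 : ℕ) : ℤ) := by push_cast; rfl
    rw [hr2] at hk2
    obtain ⟨s, hs⟩ : ∃ s, s = r / 2 := ⟨_, rfl⟩
    rw [← hs] at hk2 hLr2
    have hs2 : 2 * s ≤ r := by omega
    have hra : ((r * a : ℕ) : ℤ) = (r : ℤ) * a := by push_cast; ring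
    have hrb : ((r * b : ℕ) : ℤ) = (r : ℤ) * b := by push_cast; ring
    have h5 : (r : ℤ) * a + r ≤ n := by rw [← hra]; exact_mod_cast haK2
    have h6 : (r : ℤ) * b + r ≤ n := by rw [← hrb]; exact_mod_cast hbK2
    have h7 : (0 : ℤ) ≤ (r : ℤ) * a := by positivity
    have h8 : (0 : ℤ) ≤ (r : ℤ) * b := by positivity
    have hsz : (L : ℤ) + 1 ≤ s := by exact_mod_cast hLr2
    have hs2z : 2 * (s : ℤ) ≤ r := by exact_mod_cast hs2
    have hrpos : (0 : ℤ) < r := by exact_mod_cast (show 0 < r by omega)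
    have hnpos : (0 : ℤ) < n := by linarith
    rcases lt_trichotomy k 0 with h | h | h
    · have h9 : (n : ℤ) * k ≤ n * (-1) := mul_le_mul_of_nonneg_left (by omega) hnpos.le
      linarith
    · rw [h, mul_zero, add_zero] at hk2
      rcases lt_or_ge b a with h9 | h9
      · have h10 : (r : ℤ) * (b + 1) ≤ r * a := by
          apply mul_le_mul_of_nonneg_left _ hrpos.le
          exact_mod_cast h9
        have h11 : (r : ℤ) * (b + 1) = r * b + r := by ring
        linarith
      · have h10 : (r : ℤ) * a ≤ r * b := by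
          apply mul_le_mul_of_nonneg_left _ hrpos.le
          exact_mod_cast h9
        linarith
    · have h9 : (n : ℤ) * 1 ≤ n * k := mul_le_mul_of_nonneg_left (by omega) hnpos.le
      linarith

end CO
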