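import Pool.Agent.helper88.CO.WLA

/-!
# Row co:WLC
-/

set_option autoImplicit false

open Finset Filter Topology

namespace CO

open CU

theorem WLC (hSLB : SLB_stmt) : WLC_stmt := by
  intro d n K _ hd β hd2 hβ hK hn
  obtain ⟨r, hr⟩ : ∃ r, r = n / K := ⟨_, rfl⟩
  have hr16 : 16 ≤ r := by
    rw [hr]; exact (Nat.le_div_iff_mul_le (by omega)).mpr hn
  have hKr : K * r ≤ n := by
    rw [hr]; exact Nat.mul_div_le n K
  have hnr : n < K * r + K := by
    rw [hr]
    have := Nat.div_add_mod n K
    have h2 := Nat.mod_lt n (show K > 0 by omega)
    omega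
  have hn3 : 3 ≤ n := by omega
  have hcW : cW d n β K = 2 * (Fintype.card (Site d n) : ℝ) * Real.exp (4 * β * (((d : ℝ) + 2) *
      ((r + K : ℕ) : ℝ) * (n : ℝ) ^ (d - 2)) + 4 * d * β) := by
    unfold cW; rw [← hr]
  rw [hcW]
  have hclass : ∀ (I : Finset (ZMod n)) (a b : ℕ), (∀ u ∈ I, a ≤ u.val ∧ u.val < b) → I.card ≤ b - a := by
    intro I a b h
    calc I.card ≤ (Ico a b).card := by
          refine card_le_card_of_injOn (fun u => u.val) (fun u hu => ?_) (fun u _ v _ h => ?_)
          · simp only [coe_Ico, Set.mem_Ico]
            exact h u (mem_coe.mp hu)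
          · exact ZMod.val_injective n h
      _ = b - a := Nat.card_Ico a b
  constructor
  · refine hSLB d n hd β (isl n K) K (r + K) (fun u => u.val / r) hd2 hn3 hβ ?_ ?_ ?_
    · intro u hu
      unfold isl at hu
      rw [← hr, mem_filter] at hu
      exact (Nat.div_lt_iff_lt_mul (by omega)).mpr hu.2.1
    · intro u hu hu1
      unfold isl at hu hu1
      rw [← hr, mem_filter] at hu hu1
      have hne : (u + 1).val ≠ 0 := by
        intro h0
        have := hu1.2.2.1
        rw [h0, Nat.zero_mod] at this
        omega
      have hv := WLA_pred u hne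
      rw [hv]
      have h1 := hu1.2.2.1
      rw [hv] at h1
      rw [Nat.succ_div]
      have : ¬ r ∣ u.val + 1 := fun h => by
        rw [Nat.mod_eq_zero_of_dvd h] at h1
        omega
      simp [this]
    · intro j
      refine (hclass _ (j * r) (j * r + r) ?_).trans (by omega)
      intro u hu
      rw [mem_filter] at hu
      have h1 := Nat.div_add_mod u.val r
      have h2 := Nat.mod_lt u.val (show r > 0 by omega)
      rw [hu.2, Nat.mul_comm] at h1
      omega
  · intro o ho
    rw [← hr] at ho ⊢
    have hsl : (univ \ slab hd (wal n K r o) : Finset (Site d n)) = slab hd (univ \ wal n K r o) := by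
      ext x
      simp only [slab, Finset.mem_sdiff, mem_filter, mem_univ, true_and]
    rw [hsl]
    obtain ⟨M, hM⟩ : ∃ M, M = (K - 1) * r + o := ⟨_, rfl⟩
    have hK1 : (K - 1) * r + r = K * r := by
      have : (K - 1 + 1) * r = K * r := by rw [Nat.sub_add_cancel hK]
      rw [← this]; ring
    have hoM : o ≤ M := by omega
    have hMr : (M - o) % r = 0 := by
      rw [hM, Nat.add_sub_cancel, Nat.mul_mod_left]
    have hMo : M % r = o := by
      rw [hM, Nat.mul_comm, Nat.mul_add_mod, Nat.mod_eq_of_lt ho]
    refine hSLB d n hd β (univ \ wal n K r o) K (r + K)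
      (fun u => if o < u.val ∧ u.val < M then (u.val - o) / r else K - 1) hd2 hn3 hβ ?_ ?_ ?_
    · intro u _
      split_ifs with h
      · have : (u.val - o) / r < K - 1 := (Nat.div_lt_iff_lt_mul (by omega)).mpr (by omega)
        omega
      · omega
    · intro u hu hu1
      have hu2 : ¬ (u.val < K * r ∧ u.val % r = o) := by
        intro h
        exact (Finset.mem_sdiff.mp hu).2 (by unfold wal; rw [mem_filter]; exact ⟨mem_univ _, h⟩)
      have hu3 : ¬ ((u + 1).val < K * r ∧ (u + 1).val % r = o) := by
        intro h
        exact (Finset.mem_sdiff.mp hu1).2 (by unfold wal; rw [mem_filter]; exact ⟨mem_univ _, h⟩)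
      have hun := ZMod.val_lt u
      by_cases h0 : (u + 1).val = 0
      · have h1 : ¬ (u.val + 1 < n) := by
          intro h
          have := WLA_succ u h
          omega
        rw [h0, if_neg (by omega), if_neg (by omega)]
      · have hv := WLA_pred u h0
        rw [hv] at hu3 ⊢
        by_cases h1 : o < u.val ∧ u.val < M
        · by_cases h2 : o < u.val + 1 ∧ u.val + 1 < M
          · rw [if_pos h1, if_pos h2]
            have h3 : u.val + 1 - o = (u.val - o) + 1 := by omega
            rw [h3, Nat.succ_div]
            have h4 : ¬ r ∣ (u.val - o) + 1 := by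
              rintro ⟨c, hc⟩
              apply hu3
              refine ⟨by omega, ?_⟩
              have h5 : u.val + 1 = r * c + o := by omega
              rw [h5, Nat.mul_add_mod, Nat.mod_eq_of_lt ho]
            simp [h4]
          · exfalso
            have h3 : u.val + 1 = M := by omega
            apply hu3
            rw [h3]
            exact ⟨by omega, hMo⟩
        · by_cases h2 : o < u.val + 1 ∧ u.val + 1 < M
          · exfalso
            have h3 : u.val = o := by omega
            apply hu2
            rw [h3]
            exact ⟨by omega, Nat.mod_eq_of_lt ho⟩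
          · rw [if_neg h1, if_neg h2]
    · intro j
      by_cases hj : j = K - 1
      · have hsub : ((univ \ wal n K r o).filter (fun u => (if o < u.val ∧ u.val < M then (u.val - o) / r else K - 1) = j)) ⊆
            (univ.filter (fun u : ZMod n => u.val < o + 1)) ∪ (univ.filter (fun u : ZMod n => M ≤ u.val ∧ u.val < n)) := by
          intro u hu
          rw [mem_filter] at hu
          rw [mem_union, mem_filter, mem_filter]
          have hun := ZMod.val_lt u
          by_cases h1 : o < u.val ∧ u.val < M
          · exfalso
            have h2 := hu.2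
            rw [if_pos h1] at h2
            have : (u.val - o) / r < K - 1 := (Nat.div_lt_iff_lt_mul (by omega)).mpr (by omega)
            omega
          · by_cases h2 : u.val < o + 1
            · left; exact ⟨mem_univ _, h2⟩
            · right; exact ⟨mem_univ _, by omega, hun⟩
        refine (card_le_card hsub).trans ((card_union_le _ _).trans ?_)
        have h1 : (univ.filter (fun u : ZMod n => u.val < o + 1)).card ≤ o + 1 - 0 :=
          hclass _ 0 (o + 1) (fun u hu => ⟨Nat.zero_le _, (mem_filter.mp hu).2⟩)
        have h2 : (univ.filter (fun u : ZMod n => M ≤ u.val ∧ u.val < n)).card ≤ n - M :=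
          hclass _ M n (fun u hu => (mem_filter.mp hu).2)
        omega
      · refine (hclass _ (j * r + o) (j * r + r + o) ?_).trans (by omega)
        intro u hu
        rw [mem_filter] at hu
        by_cases h1 : o < u.val ∧ u.val < M
        · have h2 := hu.2
          rw [if_pos h1] at h2
          have h3 := Nat.div_add_mod (u.val - o) r
          have h4 := Nat.mod_lt (u.val - o) (show r > 0 by omega)
          rw [h2, Nat.mul_comm] at h3
          omega
        · exfalso
          have h2 := hu.2
          rw [if_neg h1] at h2
          omega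

end CO
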